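import Pool.Agent.Helper48.Forward
import Pool.Agent.Helper48.Backward
import Pool.Agent.Helper48.VecMeas

/-!
Determination of all extremal measures of the Laplacian on the Euclidean ball.
-/

open MeasureTheory

namespace Pool.Agent.Results.MP_489845_an.Determination

/-- The set `E_n`: complex measures `ν` on `R^n` of total variation `n` whose Fourier transform
`∫ exp(-i⟨t,ξ⟩) dν(t)` equals `-|ξ|²` on the closed unit ball. -/
def ExtremalMeasures (n : ℕ) : Set (ComplexMeasure (EuclideanSpace ℝ (Fin n))) :=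
  {ν | ν.variation Set.univ = n ∧ ∀ ξ : EuclideanSpace ℝ (Fin n), ‖ξ‖ ≤ 1 →
    ∫ᵛ t, Complex.exp (-(Complex.I * ((inner ℝ t ξ : ℝ) : ℂ))) ∂[ContinuousLinearMap.mul ℝ ℂ; ν] =
      -((‖ξ‖ ^ 2 : ℝ) : ℂ)}

/-- The set `M_n` of positive measures `μ` on `R^n` such that

* `μ` is finite and carried by the origin and the spheres `|t| = πk`, `k = 1, 2, …`;
* `μ({0}) = n/3`;
* for `k ≥ 1` the second moments of `μ` on the sphere `|t| = πk` are
  `∫ θ_i θ_j dμ = δ_{ij} 4/(π²k²)`, where `θ = t/(πk)`;
* for `l ≥ 3` and indices `j_1, …, j_l` the moment `∫ θ_{j_1} ⋯ θ_{j_l} dμ` over the sphere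
  `|t| = πk` is, for `k = 1, 2, …`, the value at `1/k` of one polynomial in which only powers with
  exponents `2 ≤ a ≤ l - 2`, `a ≡ l (mod 2)`, occur. -/
structure IsModulus (n : ℕ) (μ : Measure (EuclideanSpace ℝ (Fin n))) : Prop where
  finite : μ Set.univ < ⊤
  support : μ {t | ∀ k : ℕ, ‖t‖ ≠ Real.pi * k} = 0
  origin : μ {0} = ENNReal.ofReal ((n : ℝ) / 3)
  second : ∀ i j : Fin n, ∀ k : ℕ, 1 ≤ k →
    ∫ t in Metric.sphere (0 : EuclideanSpace ℝ (Fin n)) (Real.pi * k),
      (t i / (Real.pi * k)) * (t j / (Real.pi * k)) ∂μ =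
        if i = j then 4 / (Real.pi ^ 2 * (k : ℝ) ^ 2) else 0
  higher : ∀ l : ℕ, 3 ≤ l → ∀ J : Fin l → Fin n, ∃ q : Polynomial ℝ,
    (∀ a : ℕ, q.coeff a ≠ 0 → 2 ≤ a ∧ a ≤ l - 2 ∧ a % 2 = l % 2) ∧
    ∀ k : ℕ, 1 ≤ k →
      ∫ t in Metric.sphere (0 : EuclideanSpace ℝ (Fin n)) (Real.pi * k),
        ∏ i, (t (J i) / (Real.pi * k)) ∂μ = q.eval (1 / (k : ℝ))

open Pool.Agent.Helper48 in
/-- **Determination of `E_n`.**  For every `n ≥ 1` the map `μ ↦ -cos|t| · μ` is a bijection of
`M_n` onto `E_n`. -/
theorem result (n : ℕ) (hn : 1 ≤ n) :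
    Set.BijOn (fun μ : Measure (EuclideanSpace ℝ (Fin n)) =>
      (μ.withDensityᵥ fun t => -((Real.cos ‖t‖ : ℝ) : ℂ) : ComplexMeasure (EuclideanSpace ℝ (Fin n))))
      {μ | IsModulus n μ} (ExtremalMeasures n) := by
  obtain ⟨m, rfl⟩ : ∃ m, n = m + 1 := ⟨n - 1, by omega⟩
  -- the density
  set c : V (m + 1) → ℂ := fun t => -((Real.cos ‖t‖ : ℝ) : ℂ) with hc
  have hcm : Measurable c := by
    apply Continuous.measurable
    rw [hc]
    fun_prop
  have hcb : ∀ t, ‖c t‖ ≤ 1 := by
    intro t
    rw [hc]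
    simp only
    rw [norm_neg, Complex.norm_real]
    exact Real.abs_cos_le_one _
  -- the density is unimodular on the support
  have huni : ∀ {μ : Measure (V (m + 1))}, μ {t | ∀ k : ℕ, ‖t‖ ≠ Real.pi * k} = 0 →
      ∀ᵐ t ∂μ, ‖c t‖ = 1 := by
    intro μ hμ
    have h4 : ∀ᵐ t ∂μ, ∃ k : ℕ, ‖t‖ = Real.pi * k := by
      rw [ae_iff]
      convert hμ using 2
      ext t
      simp
    filter_upwards [h4] with t ht
    obtain ⟨k, hk⟩ := ht
    rw [hc]
    simp only
    rw [norm_neg, Complex.norm_real, hk, mul_comm, Real.cos_nat_mul_pi]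
    simp
  have hvar : ∀ {μ : Measure (V (m + 1))}, IsFiniteMeasure μ →
      μ {t | ∀ k : ℕ, ‖t‖ ≠ Real.pi * k} = 0 → (μ.withDensityᵥ c).variation = μ := by
    intro μ hfin hμ
    have hci : Integrable c μ := Integrable.of_bound hcm.aestronglyMeasurable 1
      (by filter_upwards with t using hcb t)
    rw [Measure.variation_withDensityᵥ hci]
    have : (fun x => ‖c x‖ₑ) =ᵐ[μ] fun _ => (1 : ENNReal) := by
      filter_upwards [huni hμ] with t ht
      rw [← ofReal_norm, ht, ENNReal.ofReal_one]
    rw [withDensity_congr_ae this]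
    exact withDensity_one
  refine ⟨?_, ?_, ?_⟩
  · -- sufficiency
    intro μ hμ
    have hfin : IsFiniteMeasure μ := ⟨hμ.finite⟩
    have h0 : μ.real {0} = ((m : ℝ) + 1) / 3 := by
      rw [measureReal_def, hμ.origin, ENNReal.toReal_ofReal (by positivity)]
      push_cast
      ring
    have h2 : ∀ i j : Fin (m + 1), ∀ k : ℕ, 1 ≤ k →
        mom μ [i, j] k = (if i = j then 1 else 0) * m0 k := by
      intro i j k hk
      have h := hμ.second i j k hk
      unfold mom Sp m0
      simp only [List.map_cons, List.map_nil, List.prod_cons, List.prod_nil, mul_one]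
      rw [h]
      split_ifs <;> simp
    have h3 : ∀ L : List (Fin (m + 1)), 3 ≤ L.length →
        ∃ q : Polynomial ℝ, Adm L.length (L.length - 2) q ∧
          ∀ k : ℕ, 1 ≤ k → mom μ L k = q.eval ((k : ℝ)⁻¹) := by
      intro L hL
      obtain ⟨q, hq, hqk⟩ := hμ.higher L.length hL L.get
      refine ⟨q, hq, fun k hk => ?_⟩
      rw [← one_div, ← hqk k hk]
      unfold mom Sp
      congr 1
      funext t
      rw [← List.prod_ofFn]
      congr 1
      conv_lhs => rw [← List.ofFn_get L]
      rw [List.map_ofFn]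
      rfl
    constructor
    · rw [hvar hfin hμ.support]
      have h5 := total_mass (lam := μ) h2 hμ.support h0
      have h6 : μ Set.univ = ENNReal.ofReal (μ.real Set.univ) := by
        rw [measureReal_def, ENNReal.ofReal_toReal (measure_ne_top _ _)]
      rw [h6, h5]
      have : ((m : ℝ) + 1) = ((m + 1 : ℕ) : ℝ) := by push_cast; ring
      rw [this, ENNReal.ofReal_natCast]
    · intro ξ hξ
      have h7 := integral_unimodular μ hcm (huni hμ.support) (g := fun t => ex t ξ)
        (Integrable.of_bound (ex_continuous_left ξ).aestronglyMeasurable 1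
          (by filter_upwards with t using (norm_ex t ξ).le))
      have h8 := hat_eq (lam := μ) h2 h3 hcm hcb hμ.support
        (by filter_upwards with t; rfl) h0 ξ hξ
      rw [← h8]
      exact h7
  · -- injectivity
    intro μ hμ μ' hμ' heq
    have h1 := hvar ⟨hμ.finite⟩ hμ.support
    have h2 := hvar ⟨hμ'.finite⟩ hμ'.support
    rw [← h1, ← h2]
    exact congrArg VectorMeasure.variation heq
  · -- necessity
    intro ν hν
    obtain ⟨hmass, hft⟩ := hν
    have hfin : IsFiniteMeasure ν.variation := by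
      constructor
      rw [hmass]
      exact ENNReal.natCast_lt_top _
    obtain ⟨h, hm, hb, hpol⟩ := exists_polar ν
    have hhat : ∀ ξ : V (m + 1), ‖ξ‖ ≤ 1 → hat ν.variation h ξ = -((‖ξ‖ ^ 2 : ℝ) : ℂ) := by
      intro ξ hξ
      have h7 := integral_unimodular ν.variation hm (by filter_upwards with t using hb t)
        (g := fun t => ex t ξ)
        (Integrable.of_bound (ex_continuous_left ξ).aestronglyMeasurable 1
          (by filter_upwards with t using (norm_ex t ξ).le))
      rw [← hpol] at h7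
      rw [← hft ξ hξ]
      exact h7.symm
    have hmass' : ν.variation.real Set.univ = (m : ℝ) + 1 := by
      rw [measureReal_def, hmass, ENNReal.toReal_natCast]
      push_cast
      ring
    obtain ⟨hae, hsupp⟩ := ae_structure (lam := ν.variation) hm hb hmass' hhat
    have h0 := mass_zero (lam := ν.variation) hm hb hhat hae hsupp
    obtain ⟨hm2, hm3⟩ := moments (lam := ν.variation) hm hb hhat hae hsupp
    refine ⟨ν.variation, ⟨hfin.measure_univ_lt_top, hsupp, ?_, ?_, ?_⟩, ?_⟩
    · rw [← ENNReal.ofReal_toReal (measure_ne_top ν.variation {0})]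
      congr 1
      rw [← measureReal_def, h0]
      push_cast
      ring
    · intro i j k hk
      have h5 := hm2 i j k hk
      unfold mom Sp m0 at h5
      simp only [List.map_cons, List.map_nil, List.prod_cons, List.prod_nil, mul_one] at h5
      rw [h5]
      split_ifs <;> simp
    · intro l hl J
      obtain ⟨q, hq, hqk⟩ := hm3 (List.ofFn J) (by rw [List.length_ofFn]; exact hl)
      rw [List.length_ofFn] at hq
      refine ⟨q, hq, fun k hk => ?_⟩
      rw [one_div, ← hqk k hk]
      unfold mom Sp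
      congr 1
      funext t
      rw [List.map_ofFn, List.prod_ofFn]
      rfl
    · change ν.variation.withDensityᵥ c = ν
      conv_rhs => rw [hpol]
      apply WithDensityᵥEq.congr_ae
      filter_upwards [hae] with t ht
      rw [ht]

end Pool.Agent.Results.MP_489845_an.Determination
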